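import Pool.Agent.N541.LV.Stm

/-!
# Project LV (helper541), part CORE: counting all sequences (helper143)
-/

set_option autoImplicit false

namespace Pool.Agent.N143.LV

open Finset Pool.Agent.N541.LV

open scoped Classical in
theorem seqs_mem (X : ℕ) (L : List ℕ → Prop) : ∀ (t : ℕ) (p : List ℕ), p ∈ seqs X L t →
    p.length = t ∧ (∀ z ∈ p, 1 ≤ z ∧ z ≤ X) ∧ (1 ≤ t → L p) := by
  intro t
  induction t with
  | zero =>
    intro p hp
    have : p = [] := by simpa [seqs] using hp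
    subst this
    exact ⟨rfl, by simp, by simp⟩
  | succ t ih =>
    intro p hp
    rw [seqs, Finset.mem_filter, Finset.mem_image] at hp
    obtain ⟨⟨⟨p', z⟩, hq, rfl⟩, hL⟩ := hp
    rw [Finset.mem_product, Finset.mem_Icc] at hq
    obtain ⟨h1, h2⟩ := hq
    obtain ⟨i1, i2, _⟩ := ih p' h1
    refine ⟨by simp [i1], ?_, fun _ => hL⟩
    intro w hw
    rcases List.mem_cons.1 hw with rfl | hw
    · exact h2
    · exact i2 w hw

theorem rk_le {d : ℕ} (Λ : AddSubgroup (Fin d → ℤ)) (R : Fin d → ℕ) : rk Λ R ≤ d := by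
  unfold rk
  have := Submodule.finrank_le (sp Λ R)
  simpa using this

theorem rk_pos {d : ℕ} (Λ : AddSubgroup (Fin d → ℤ)) (R : Fin d → ℕ)
    (h : ∃ P ∈ pts Λ R, P ≠ 0) : 1 ≤ rk Λ R := by
  obtain ⟨P, hP, hP0⟩ := h
  unfold rk
  have hmem : rat P ∈ sp Λ R := Submodule.subset_span ⟨P, hP, rfl⟩
  have hne : rat P ≠ 0 := by
    intro h0
    apply hP0
    funext l
    have := congrFun h0 l
    simp only [rat, Pi.zero_apply] at this
    exact_mod_cast this
  have : Nontrivial (sp Λ R) := ⟨⟨⟨rat P, hmem⟩, 0, fun h => hne (by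
    have := congrArg Subtype.val h
    simpa using this)⟩⟩
  exact Module.finrank_pos

theorem q_nonneg {q : ℕ} (hq : 1 ≤ q) : (0 : ℝ) ≤ 1 - 1 / (q : ℝ) := by
  have hq' : (1 : ℝ) ≤ q := by exact_mod_cast hq
  have : 1 / (q : ℝ) ≤ 1 := by
    rw [div_le_one (by linarith)]
    exact hq'
  linarith

theorem Wt_ge {d : ℕ} (q X : ℕ) (hq : 1 ≤ q) (hX : 1 ≤ X) (Λ : AddSubgroup (Fin d → ℤ))
    (R : Fin d → ℕ) (h : ∃ P ∈ pts Λ R, P ≠ 0) : 1 ≤ Wt q X Λ R := by
  unfold Wt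
  have h1 : (1 : ℝ) ≤ ((pts Λ R).card : ℝ) ^ (1 / (q : ℝ)) := by
    apply Real.one_le_rpow
    · obtain ⟨P, hP, _⟩ := h
      have : 1 ≤ (pts Λ R).card := Finset.card_pos.2 ⟨P, hP⟩
      exact_mod_cast this
    · positivity
  have h2 : (1 : ℝ) ≤ (X : ℝ) ^ ((1 - 1 / (q : ℝ)) * ((rk Λ R : ℝ) - 1)) := by
    apply Real.one_le_rpow
    · exact_mod_cast hX
    · apply mul_nonneg (q_nonneg hq)
      have : (1 : ℝ) ≤ rk Λ R := by exact_mod_cast rk_pos Λ R h
      linarith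
  calc (1 : ℝ) = 1 * 1 := by norm_num
    _ ≤ _ := mul_le_mul h1 h2 (by norm_num) (by linarith)

theorem sub_nil {d : ℕ} (z : ℕ) :
    sub (⊤ : AddSubgroup (Fin d → ℤ)) (opp []) z = ⊤ := by
  have hM : Mo (opp []) z = 1 := by
    unfold Mo
    exact Finset.prod_eq_one (fun j _ => absurd j.isLt (by simp))
  ext Q
  constructor
  · intro _
    exact AddSubgroup.mem_top Q
  · intro _
    refine ⟨AddSubgroup.mem_top Q, ?_⟩
    rw [hM]
    exact one_dvd _

open scoped Classical in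
theorem card_top {d : ℕ} (X s C0 : ℕ) (R : Fin d → ℕ)
    (hR : ∀ l, 1 ≤ R l ∧ R l ≤ C0 * X ^ (s - (l : ℕ))) :
    (pts (⊤ : AddSubgroup (Fin d → ℤ)) R).card ≤ (3 * C0) ^ d * X ^ (∑ l : Fin d, (s - (l : ℕ))) := by
  calc (pts (⊤ : AddSubgroup (Fin d → ℤ)) R).card ≤ (Pool.Agent.N541.LV.box R).card := Finset.card_filter_le _ _
    _ = ∏ l, (2 * R l + 1) := by
      unfold Pool.Agent.N541.LV.box
      rw [Fintype.card_piFinset]
      refine Finset.prod_congr rfl fun l _ => ?_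
      rw [Int.card_Icc]
      omega
    _ ≤ ∏ l : Fin d, (3 * C0) * X ^ (s - (l : ℕ)) := by
      refine Finset.prod_le_prod' fun l _ => ?_
      obtain ⟨h1, h2⟩ := hR l
      calc 2 * R l + 1 ≤ 3 * R l := by omega
        _ ≤ 3 * (C0 * X ^ (s - (l : ℕ))) := by omega
        _ = _ := by ring
    _ = _ := by
      rw [Finset.prod_mul_distrib, Finset.prod_const, Finset.card_univ, Fintype.card_fin,
        Finset.prod_pow_eq_pow_sum]

theorem sum_exp (d s : ℕ) (hd : d ≤ s) :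
    ((∑ l : Fin d, (s - (l : ℕ)) : ℕ) : ℝ) = (d : ℝ) * s - (d : ℝ) * (d - 1) / 2 := by
  rw [Fin.sum_univ_eq_sum_range (fun l => s - l) d]
  induction d with
  | zero => simp
  | succ n ih =>
    rw [Finset.sum_range_succ, Nat.cast_add, ih (by omega), Nat.cast_sub (by omega)]
    push_cast
    ring

theorem W_nil {d : ℕ} (q X s C0 : ℕ) (hd : 1 ≤ d) (hds : d ≤ s) (hq : 1 ≤ q) (hX : 1 ≤ X)
    (R : Fin d → ℕ) (hR : ∀ l, 1 ≤ R l ∧ R l ≤ C0 * X ^ (s - (l : ℕ))) :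
    Wt q X (⊤ : AddSubgroup (Fin d → ℤ)) R ≤ ((3 * C0 : ℝ) ^ d) ^ (1 / (q : ℝ)) *
      (X : ℝ) ^ (((d : ℝ) * s - (d : ℝ) * (d - 1) / 2) * (1 / (q : ℝ)) +
        (1 - 1 / (q : ℝ)) * ((d : ℝ) - 1)) := by
  have hX' : (1 : ℝ) ≤ X := by exact_mod_cast hX
  have hX0 : (0 : ℝ) < X := by linarith
  unfold Wt
  have h1 : ((pts (⊤ : AddSubgroup (Fin d → ℤ)) R).card : ℝ) ^ (1 / (q : ℝ)) ≤
      ((3 * C0 : ℝ) ^ d) ^ (1 / (q : ℝ)) *
        (X : ℝ) ^ (((d : ℝ) * s - (d : ℝ) * (d - 1) / 2) * (1 / (q : ℝ))) := by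
    have h := card_top X s C0 R hR
    have h' : ((pts (⊤ : AddSubgroup (Fin d → ℤ)) R).card : ℝ) ≤
        (3 * C0 : ℝ) ^ d * (X : ℝ) ^ (((d : ℝ) * s - (d : ℝ) * (d - 1) / 2)) := by
      rw [← sum_exp d s hds, Real.rpow_natCast]
      exact_mod_cast h
    calc ((pts (⊤ : AddSubgroup (Fin d → ℤ)) R).card : ℝ) ^ (1 / (q : ℝ))
        ≤ ((3 * C0 : ℝ) ^ d * (X : ℝ) ^ (((d : ℝ) * s - (d : ℝ) * (d - 1) / 2))) ^ (1 / (q : ℝ)) :=
          Real.rpow_le_rpow (by positivity) h' (by positivity)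
      _ = _ := by
          rw [Real.mul_rpow (by positivity) (by positivity), ← Real.rpow_mul hX0.le]
  have h2 : (X : ℝ) ^ ((1 - 1 / (q : ℝ)) * ((rk (⊤ : AddSubgroup (Fin d → ℤ)) R : ℝ) - 1)) ≤
      (X : ℝ) ^ ((1 - 1 / (q : ℝ)) * ((d : ℝ) - 1)) := by
    apply Real.rpow_le_rpow_of_exponent_le hX'
    apply mul_le_mul_of_nonneg_left _ (q_nonneg hq)
    have : (rk (⊤ : AddSubgroup (Fin d → ℤ)) R : ℝ) ≤ d := by exact_mod_cast rk_le _ R
    linarith
  calc _ ≤ (((3 * C0 : ℝ) ^ d) ^ (1 / (q : ℝ)) *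
        (X : ℝ) ^ (((d : ℝ) * s - (d : ℝ) * (d - 1) / 2) * (1 / (q : ℝ)))) *
        (X : ℝ) ^ ((1 - 1 / (q : ℝ)) * ((d : ℝ) - 1)) :=
        mul_le_mul h1 h2 (by positivity) (by positivity)
    _ = _ := by rw [mul_assoc, ← Real.rpow_add hX0]

open scoped Classical in
theorem main (hS : STEPStm) (hT : TREEStm) (hSum : SUMStm) : COREStm := by
  intro d q s C0 hd hds hq ε hε
  set e1 : ℝ := ε / (2 * s + 1) with he1
  have hs1 : (1 : ℝ) ≤ s := by exact_mod_cast hd.trans hds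
  have he1pos : 0 < e1 := by positivity
  have hex : ∀ m : ℕ, ∃ C : ℝ, 0 < C ∧ (1 ≤ m →
      ∀ X : ℕ, 1 ≤ X → ∀ (R : Fin d → ℕ), (∀ l, 1 ≤ R l ∧ R l ≤ C0 * X ^ s) →
      ∀ (Λ : AddSubgroup (Fin d → ℤ)) (o : Fin m → ℕ), (∀ j, 1 ≤ o j ∧ o j ≤ X) →
      ∀ Z : Finset ℕ, Z ⊆ Finset.Icc 1 X →
      (∀ z ∈ Z, ∃ P ∈ pts (sub Λ o z) R, ev P (z : ℤ) ≠ 0 ∧ ∀ j, ev P (o j : ℤ) ≠ 0) →
      ∑ z ∈ Z, Wt q X (sub Λ o z) R ≤
        C * (X : ℝ) ^ (max 0 (1 - (m : ℝ) / q) + e1) * Wt q X Λ R) := by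
    intro m
    by_cases hm : 1 ≤ m
    · obtain ⟨C, hC, h⟩ := hS d m q s C0 hd hm hq e1 he1pos
      exact ⟨C, hC, fun _ => h⟩
    · exact ⟨1, one_pos, fun h => absurd h hm⟩
  choose Cs hCs hstep using hex
  set PC : ℝ := ∏ t ∈ Finset.range (2 * s - 1), Cs ((t + 2) / 2) with hPC
  have hPCpos : 0 < PC := Finset.prod_pos fun t _ => hCs _
  refine ⟨PC * (((3 * C0 : ℝ) ^ d) ^ (1 / (q : ℝ)) + 1), by positivity, ?_⟩
  intro X hX R hR
  have hX' : (1 : ℝ) ≤ X := by exact_mod_cast hX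
  have hX0 : (0 : ℝ) < X := by linarith
  have hRs : ∀ l, 1 ≤ R l ∧ R l ≤ C0 * X ^ s := fun l => ⟨(hR l).1,
    (hR l).2.trans (Nat.mul_le_mul_left _ (Nat.pow_le_pow_right hX (Nat.sub_le _ _)))⟩
  set W : List ℕ → ℝ := fun p => Wt q X (lat d p) R with hW
  set K : ℕ → ℝ := fun t => match t with
    | 0 => (X : ℝ)
    | t + 1 => Cs ((t + 2) / 2) *
        (X : ℝ) ^ (max 0 (1 - ((((t + 2) / 2 : ℕ) : ℝ)) / (q : ℝ)) + e1) with hK
  have hWnil : 1 ≤ W [] := by
    apply Wt_ge q X hq hX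
    refine ⟨Pi.single ⟨0, hd⟩ 1, ?_, ?_⟩
    · unfold pts
      rw [Finset.mem_filter]
      refine ⟨?_, AddSubgroup.mem_top _⟩
      unfold Pool.Agent.N541.LV.box
      rw [Fintype.mem_piFinset]
      intro l
      rw [Finset.mem_Icc]
      have h1 := (hR l).1
      by_cases hl : l = ⟨0, hd⟩
      · subst hl
        rw [Pi.single_eq_same]
        constructor <;> omega
      · rw [Pi.single_eq_of_ne hl]
        constructor <;> omega
    · intro h
      have := congrFun h ⟨0, hd⟩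
      rw [Pi.single_eq_same] at this
      exact one_ne_zero this
  have hWlive : ∀ p, Live d R p → 1 ≤ W p := by
    intro p hp
    cases p with
    | nil => exact hWnil
    | cons z p =>
      obtain ⟨P, hP, hz⟩ := hp
      apply Wt_ge q X hq hX
      refine ⟨P, hP, ?_⟩
      intro h0
      apply hz z (by simp)
      rw [h0]
      simp [ev]
  have hKnn : ∀ t, 0 ≤ K t := by
    intro t
    cases t with
    | zero => exact hX0.le
    | succ t =>
      have := hCs ((t + 2) / 2)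
      simp only [hK]
      positivity
  have htree := hT X (2 * s) (Live d R) W K hWlive hWnil hKnn (by
    intro t _ p hp Z hZ hL
    obtain ⟨hlen, hent, hlive⟩ := seqs_mem X (Live d R) t p hp
    cases t with
    | zero =>
      have hp0 : p = [] := List.length_eq_zero_iff.1 hlen
      subst hp0
      have h1 : ∀ z, W [z] = W [] := by
        intro z
        simp only [hW, lat]
        rw [sub_nil]
      calc ∑ z ∈ Z, W [z] = Z.card * W [] := by
            rw [Finset.sum_congr rfl fun z _ => h1 z, Finset.sum_const, nsmul_eq_mul]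
        _ ≤ X * W [] := by
            apply mul_le_mul_of_nonneg_right _ (by linarith)
            have := Finset.card_le_card hZ
            rw [Nat.card_Icc] at this
            have h2 : Z.card ≤ X := by omega
            exact_mod_cast h2
    | succ t =>
      have hm : 1 ≤ (p.length + 1) / 2 := by omega
      have h1 := hstep ((p.length + 1) / 2) hm X hX R hRs (lat d p) (opp p) (by
        intro j
        have hj := j.isLt
        have hlt : 2 * (j : ℕ) < p.length := by omega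
        have : opp p j ∈ p := by
          unfold opp
          rw [List.getD_eq_getElem _ _ hlt]
          exact List.getElem_mem _
        exact hent _ this) Z hZ (by
        intro z hz
        obtain ⟨P, hP, hPz⟩ := hL z hz
        refine ⟨P, hP, hPz z (by simp), ?_⟩
        intro j
        apply hPz
        apply List.mem_cons_of_mem
        have hj := j.isLt
        have hlt : 2 * (j : ℕ) < p.length := by omega
        unfold opp
        rw [List.getD_eq_getElem _ _ hlt]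
        exact List.getElem_mem _)
      have h2 : (p.length + 1) / 2 = (t + 2) / 2 := by omega
      have h3 : Cs ((p.length + 1) / 2) *
          (X : ℝ) ^ (max 0 (1 - ((((p.length + 1) / 2 : ℕ) : ℝ)) / (q : ℝ)) + e1) = K (t + 1) := by
        simp only [hK]
        rw [h2]
      rw [← h3]
      exact h1)
  have hprod : ∏ t ∈ Finset.range (2 * s), K t = (X : ℝ) * (PC *
      (X : ℝ) ^ (∑ t ∈ Finset.range (2 * s - 1),
        (max 0 (1 - ((((t + 2) / 2 : ℕ) : ℝ)) / (q : ℝ)) + e1))) := by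
    have h2s : 2 * s = (2 * s - 1) + 1 := by omega
    rw [h2s, Finset.prod_range_succ']
    simp only [hK]
    rw [Finset.prod_mul_distrib, Real.rpow_sum_of_pos hX0]
    rw [show (2 * s - 1 + 1 - 1) = 2 * s - 1 by omega]
    ring
  have hsum := hSum q (2 * s - 1) hq
  have hexp : (1 : ℝ) + ∑ t ∈ Finset.range (2 * s - 1),
        (max 0 (1 - ((((t + 2) / 2 : ℕ) : ℝ)) / (q : ℝ)) + e1) ≤ q + ε := by
    rw [Finset.sum_add_distrib, Finset.sum_const, Finset.card_range, nsmul_eq_mul]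
    have h1 : (((2 * s - 1 : ℕ) : ℝ)) * e1 ≤ ε := by
      have h2 : (((2 * s - 1 : ℕ) : ℝ)) ≤ 2 * s + 1 := by
        have : 2 * s - 1 ≤ 2 * s + 1 := by omega
        exact_mod_cast this
      calc (((2 * s - 1 : ℕ) : ℝ)) * e1 ≤ (2 * s + 1) * e1 :=
            mul_le_mul_of_nonneg_right h2 he1pos.le
        _ = ε := by rw [he1]; field_simp
    linarith
  have hWn := W_nil q X s C0 hd hds hq hX R hR
  have hWn' : W [] ≤ (((3 * C0 : ℝ) ^ d) ^ (1 / (q : ℝ)) + 1) *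
      (X : ℝ) ^ (((d : ℝ) * s - (d : ℝ) * (d - 1) / 2) * (1 / (q : ℝ)) +
        (1 - 1 / (q : ℝ)) * ((d : ℝ) - 1)) := by
    refine le_trans hWn ?_
    apply mul_le_mul_of_nonneg_right (by linarith) (by positivity)
  calc ((seqs X (Live d R) (2 * s)).card : ℝ)
      ≤ (∏ t ∈ Finset.range (2 * s), K t) * W [] := htree
    _ = PC * (X : ℝ) ^ ((1 : ℝ) + ∑ t ∈ Finset.range (2 * s - 1),
        (max 0 (1 - ((((t + 2) / 2 : ℕ) : ℝ)) / (q : ℝ)) + e1)) * W [] := by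
        rw [hprod, Real.rpow_add hX0, Real.rpow_one]
        ring
    _ ≤ PC * (X : ℝ) ^ ((q : ℝ) + ε) * ((((3 * C0 : ℝ) ^ d) ^ (1 / (q : ℝ)) + 1) *
      (X : ℝ) ^ (((d : ℝ) * s - (d : ℝ) * (d - 1) / 2) * (1 / (q : ℝ)) +
        (1 - 1 / (q : ℝ)) * ((d : ℝ) - 1))) := by
        apply mul_le_mul _ hWn' (by linarith) (by positivity)
        apply mul_le_mul_of_nonneg_left _ hPCpos.le
        exact Real.rpow_le_rpow_of_exponent_le hX' hexp
    _ = PC * (((3 * C0 : ℝ) ^ d) ^ (1 / (q : ℝ)) + 1) *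
        ((X : ℝ) ^ ((q : ℝ) + ε) * (X : ℝ) ^ (((d : ℝ) * s - (d : ℝ) * (d - 1) / 2) * (1 / (q : ℝ)) +
        (1 - 1 / (q : ℝ)) * ((d : ℝ) - 1))) := by ring
    _ = PC * (((3 * C0 : ℝ) ^ d) ^ (1 / (q : ℝ)) + 1) *
      (X : ℝ) ^ ((q : ℝ) + ((d : ℝ) * s - (d - 1) * (d + 2) / 2) / q + (d - 1) + ε) := by
        rw [← Real.rpow_add hX0]
        congr 2
        ring

end Pool.Agent.N143.LV
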